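import Mathlib

/-!
# MP_04dca5_al, transfer theorem: the abstract part
-/

set_option autoImplicit false

namespace Pool.Agent.Lib.MP_04dca5_al.Tr

/-- `k` is an invariant equivalence relation with finite classes. -/
structure FC (Γ : Type) {X : Type} [Group Γ] [MulAction Γ X] (k : Setoid X) : Prop where
  inv : ∀ (g : Γ) (x y : X), k x y → k (g • x) (g • y)
  fc : ∀ x, {y | k x y}.Finite

/-- `κ` is a cocycle with values in the functions of finite support. -/
structure Coc {Γ X : Type} [Group Γ] [MulAction Γ X] {p : ℕ} (κ : Γ → X → ZMod p) : Prop where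
  mul : ∀ g h x, κ (g * h) x = κ g x + κ h (g⁻¹ • x)
  fs : ∀ g, {x | κ g x ≠ 0}.Finite

section
variable {Γ X : Type} [Group Γ] [MulAction Γ X] {p : ℕ}

theorem FC.inv_iff {k : Setoid X} (hk : FC Γ k) (g : Γ) (x y : X) :
    k (g • x) (g • y) ↔ k x y := by
  refine ⟨fun h => ?_, hk.inv g x y⟩
  have h2 := hk.inv g⁻¹ _ _ h
  rwa [inv_smul_smul, inv_smul_smul] at h2

theorem Coc.one {κ : Γ → X → ZMod p} (hκ : Coc κ) (x : X) : κ 1 x = 0 := by
  have h := hκ.mul 1 1 x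
  rw [one_mul, inv_one, one_smul] at h
  linear_combination -h

theorem Coc.inv {κ : Γ → X → ZMod p} (hκ : Coc κ) (g : Γ) (x : X) :
    κ g⁻¹ x = - κ g (g • x) := by
  have h := hκ.mul g⁻¹ g x
  rw [inv_mul_cancel, inv_inv, hκ.one] at h
  linear_combination -h

theorem Coc.conj {κ : Γ → X → ZMod p} (hκ : Coc κ) (g : Γ) {n : Γ} (hn : ∀ x : X, n • x = x)
    (x : X) : κ (g * n * g⁻¹) (g • x) = κ n x := by
  have hn' : n⁻¹ • x = x := by
    have h := inv_smul_smul n x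
    rwa [hn] at h
  rw [hκ.mul, hκ.mul, hκ.inv g, mul_inv_rev, mul_smul, inv_smul_smul, hn']
  ring

theorem Coc.conj_triv {g n : Γ} (hn : ∀ x : X, n • x = x) (x : X) : (g * n * g⁻¹) • x = x := by
  rw [mul_smul, mul_smul, hn, smul_inv_smul]

theorem pfix {P Z : Type} [Group P] [MulAction P Z] (hp : p.Prime) (hP : IsPGroup p P)
    (S : Set Z) (hS : S.Finite) (hinv : ∀ g : P, ∀ z ∈ S, g • z ∈ S) :
    Nat.card S ≡ Nat.card {z // z ∈ S ∧ ∀ g : P, g • z = z} [MOD p] := by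
  have : Fact p.Prime := ⟨hp⟩
  let M : SubMulAction P Z := ⟨S, fun g {z} hz => hinv g z hz⟩
  have : Finite M := hS
  have h := hP.card_modEq_card_fixedPoints M
  have h2 : Nat.card (MulAction.fixedPoints P M) =
      Nat.card {z // z ∈ S ∧ ∀ g : P, g • z = z} :=
    Nat.card_congr ⟨fun z => ⟨z.1.1, z.1.2, fun g => congrArg Subtype.val (z.2 g)⟩,
      fun z => ⟨⟨z.1, z.2.1⟩, fun g => Subtype.ext (z.2.2 g)⟩, fun _ => rfl, fun _ => rfl⟩
  rw [← h2]
  exact h

theorem sum_inv {P Z : Type} [Group P] [MulAction P Z] (hp : p.Prime) (hP : IsPGroup p P)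
    (S : Finset Z) (hinv : ∀ g : P, ∀ z ∈ S, g • z ∈ S) (hmov : ∀ z ∈ S, ∃ g : P, g • z ≠ z)
    (Φ : Z → ZMod p) (hΦ : ∀ g : P, ∀ z ∈ S, Φ (g • z) = Φ z) : ∑ z ∈ S, Φ z = 0 := by
  classical
  have : Fact p.Prime := ⟨hp⟩
  rw [← Finset.sum_fiberwise S Φ Φ]
  refine Finset.sum_eq_zero fun v _ => ?_
  rw [Finset.sum_congr rfl (fun z hz => (Finset.mem_filter.1 hz).2), Finset.sum_const,
    nsmul_eq_mul]
  have h2 := pfix hp hP ((S.filter (fun z => Φ z = v) : Finset Z) : Set Z)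
    (Finset.finite_toSet _) (by
      intro g z hz
      have hz' := Finset.mem_filter.1 (Finset.mem_coe.1 hz)
      exact Finset.mem_coe.2 (Finset.mem_filter.2
        ⟨hinv g z hz'.1, (hΦ g z hz'.1).trans hz'.2⟩))
  have h3 : Nat.card {z // z ∈ ((S.filter (fun z => Φ z = v) : Finset Z) : Set Z) ∧
      ∀ g : P, g • z = z} = 0 := by
    rw [Nat.card_eq_zero]
    left
    refine ⟨fun z => ?_⟩
    obtain ⟨g, hg⟩ := hmov z.1 (Finset.mem_filter.1 (Finset.mem_coe.1 z.2.1)).1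
    exact hg (z.2.2 g)
  rw [h3, Nat.card_eq_card_toFinset, Finset.toFinset_coe] at h2
  rw [(ZMod.natCast_eq_zero_iff _ _).2 (Nat.modEq_zero_iff_dvd.1 h2), zero_mul]

theorem coc_hfs {κ : Γ → X → ZMod p} (hκ : Coc κ) (q : X → ZMod p) (g : Γ) :
    Function.HasFiniteSupport (fun x => q x * κ g x) := by
  refine (hκ.fs g).subset fun x hx => ?_
  intro h
  exact hx (by simp [h])

end

end Pool.Agent.Lib.MP_04dca5_al.Tr
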