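import Pool.Agent.Lib.MP_04dca5_al.Tr.Main

/-!
# MP_04dca5_al, transfer theorem: all homomorphisms at once
-/

set_option autoImplicit false

namespace Pool.Agent.Lib.MP_04dca5_al.Tr

open Equiv Pool.Agent.Lib.MP_04dca5_al.Cut

/-- `φ` is a homomorphism from the stabiliser of the `r`-class of `o`, trivial on the pointwise stabiliser of this class. -/
structure IsChar {Ω : Type} (p : ℕ) (G : Subgroup (Perm Ω)) (r : Setoid Ω) (o : Ω)
    (φ : Perm Ω → ZMod p) : Prop where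
  mul : ∀ a ∈ G, ∀ b ∈ G, r o (a o) → r o (b o) → φ (a * b) = φ a + φ b
  triv : ∀ a ∈ G, (∀ y, r o y → a y = y) → φ a = 0

theorem exists_joins {Ω ι : Type} {p : ℕ} {G : Subgroup (Perm Ω)} (h : Hyp p G) (F : Finset ι)
    (u : ι → Setoid Ω) (hu : ∀ i ∈ F, Good G (u i)) :
    ∃ v : Setoid Ω, Good G v ∧ ∀ i ∈ F, u i ≤ v := by
  classical
  induction F using Finset.induction_on with
  | empty => exact ⟨⊥, good_bot G, fun i hi => absurd hi (Finset.notMem_empty i)⟩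
  | insert i F _ ih =>
    obtain ⟨v, hv, hF⟩ := ih fun j hj => hu j (Finset.mem_insert_of_mem hj)
    obtain ⟨w, hw, hvw, hiw⟩ := exists_join h hv (hu i (Finset.mem_insert_self i F))
    refine ⟨w, hw, fun j hj => ?_⟩
    rcases Finset.mem_insert.1 hj with rfl | hj
    · exact hiw
    · exact (hF j hj).trans hvw

theorem char_eq {Ω : Type} {p : ℕ} {G : Subgroup (Perm Ω)} {r : Setoid Ω} {o : Ω}
    {φ : Perm Ω → ZMod p} (hφ : IsChar p G r o φ) {a b : Perm Ω} (ha : a ∈ G) (hb : b ∈ G)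
    (hbo : r o (b o)) (hab : ∀ y, r o y → b y = a y) : φ a = φ b := by
  have h1 : b⁻¹ * a ∈ G := G.mul_mem (G.inv_mem hb) ha
  have h2 : ∀ y, r o y → (b⁻¹ * a) y = y := by
    intro y hy
    rw [Perm.mul_apply, ← hab y hy]
    exact b.symm_apply_apply y
  have h3 : a = b * (b⁻¹ * a) := by group
  have h4 : r o ((b⁻¹ * a) o) := by
    rw [h2 o (r.refl o)]
  rw [h3, hφ.mul b hb _ h1 hbo h4, hφ.triv _ h1 h2, add_zero]

theorem mainAll {Ω : Type} {p : ℕ} {G : Subgroup (Perm Ω)} (h : Hyp p G) {r : Setoid Ω}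
    (hr : Good G r) (o : Ω) :
    ∃ u : Setoid Ω, Good G u ∧ ∀ s : Setoid Ω, Good G s → r ≤ s → u ≤ s →
      ∀ φ : Perm Ω → ZMod p, IsChar p G r o φ → ∀ g ∈ G,
      (∀ y, s o y → r y (g y)) → ∀ T : Finset (Perm Ω), (∀ t ∈ T, t ∈ G ∧ s o (t o)) →
      (∀ t ∈ T, ∀ t' ∈ T, r (t o) (t' o) → t = t') → (∀ y, s o y → ∃ t ∈ T, r y (t o)) →
      ∑ t ∈ T, φ (t⁻¹ * g * t) = 0 := by
  classical
  have : Fact p.Prime := ⟨h.prime⟩
  have hB : Finite {y | r o y} := hr.fc o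
  have hfun : Finite (({y | r o y} → {y | r o y}) → ZMod p) := inferInstance
  have hft : Fintype (({y | r o y} → {y | r o y}) → ZMod p) := Fintype.ofFinite _
  -- the values of a homomorphism
  let P : ({y | r o y} → {y | r o y}) → Prop := fun f => ∃ b ∈ G, r o (b o) ∧
    ∀ y : {y | r o y}, b y = f y
  let c : (Perm Ω → ZMod p) → (({y | r o y} → {y | r o y}) → ZMod p) := fun φ f =>
    if hf : P f then φ hf.choose else 0
  have hc : ∀ φ, IsChar p G r o φ → ∀ a, ∀ ha : a ∈ G, ∀ hao : r o (a o),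
      φ a = c φ (fun y => ⟨a y, r.trans hao (hr.inv a ha _ _ y.2)⟩) := by
    intro φ hφ a ha hao
    have hP : P (fun y => ⟨a y, r.trans hao (hr.inv a ha _ _ y.2)⟩) := ⟨a, ha, hao, fun y => rfl⟩
    show φ a = if hf : P (fun y => ⟨a y, r.trans hao (hr.inv a ha _ _ y.2)⟩) then
      φ hf.choose else 0
    rw [dif_pos hP]
    obtain ⟨h1, h2, h3⟩ := hP.choose_spec
    exact char_eq hφ ha h1 h2 fun y hy => h3 ⟨y, hy⟩
  have hex : ∀ v : (({y | r o y} → {y | r o y}) → ZMod p), ∃ u : Setoid Ω, Good G u ∧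
      ((∃ φ, IsChar p G r o φ ∧ c φ = v) → ∃ φ, IsChar p G r o φ ∧ c φ = v ∧
        ∀ s : Setoid Ω, Good G s → r ≤ s → u ≤ s → ∀ g ∈ G,
        (∀ y, s o y → r y (g y)) → ∀ T : Finset (Perm Ω), (∀ t ∈ T, t ∈ G ∧ s o (t o)) →
        (∀ t ∈ T, ∀ t' ∈ T, r (t o) (t' o) → t = t') → (∀ y, s o y → ∃ t ∈ T, r y (t o)) →
        ∑ t ∈ T, φ (t⁻¹ * g * t) = 0) := by
    intro v
    by_cases hv : ∃ φ, IsChar p G r o φ ∧ c φ = v
    · obtain ⟨φ, hφ, hφv⟩ := hv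
      obtain ⟨u, hu, hu'⟩ := mainT h hr o φ hφ.mul hφ.triv
      exact ⟨u, hu, fun _ => ⟨φ, hφ, hφv, hu'⟩⟩
    · exact ⟨⊥, good_bot G, fun h1 => absurd h1 hv⟩
  choose u hu hu' using hex
  obtain ⟨w, hw, huw⟩ := exists_joins h Finset.univ u fun v _ => hu v
  refine ⟨w, hw, fun s hs hrs hws φ hφ g hg hgs T hT1 hT2 hT3 => ?_⟩
  obtain ⟨φ', hφ', hcc, hmain⟩ := hu' (c φ) ⟨φ, hφ, rfl⟩
  rw [← hmain s hs hrs ((huw _ (Finset.mem_univ _)).trans hws) g hg hgs T hT1 hT2 hT3]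
  refine Finset.sum_congr rfl fun t ht => ?_
  obtain ⟨htG, hto⟩ := hT1 t ht
  have h1 : t⁻¹ * g * t ∈ G := G.mul_mem (G.mul_mem (G.inv_mem htG) hg) htG
  have h2 : r o ((t⁻¹ * g * t) o) := by
    have h3 := hr.inv t⁻¹ (G.inv_mem htG) _ _ (hgs _ hto)
    have h4 : t⁻¹ (t o) = o := t.symm_apply_apply o
    rw [h4] at h3
    exact h3
  rw [hc φ hφ _ h1 h2, hc φ' hφ' _ h1 h2, hcc]

end Pool.Agent.Lib.MP_04dca5_al.Tr
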