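import Pool.Agent.Lib.MP_04dca5_al.Tr.Dual

/-!
# MP_04dca5_al, transfer theorem: the class sums of the cocycle vanish on the kernel
-/

set_option autoImplicit false

namespace Pool.Agent.Lib.MP_04dca5_al.Tr

section
variable {Γ X : Type} [Group Γ] [MulAction Γ X] {p : ℕ}

/-- The stabiliser of a class. -/
def stab {k : Setoid X} (hk : FC Γ k) (x0 : X) : Subgroup Γ where
  carrier := {b | k x0 (b • x0)}
  one_mem' := by
    show k x0 ((1 : Γ) • x0)
    rw [one_smul]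
  mul_mem' := by
    intro a b ha hb
    show k x0 ((a * b) • x0)
    rw [mul_smul]
    exact k.trans ha (hk.inv a _ _ hb)
  inv_mem' := by
    intro a ha
    show k x0 (a⁻¹ • x0)
    have h := hk.inv a⁻¹ _ _ ha
    rw [inv_smul_smul] at h
    exact k.symm h

theorem mem_stab {k : Setoid X} (hk : FC Γ k) (x0 : X) (b : Γ) :
    b ∈ stab hk x0 ↔ k x0 (b • x0) := Iff.rfl

theorem stab_class {k : Setoid X} (hk : FC Γ k) {x0 : X} {b : Γ} (hb : b ∈ stab hk x0) (x : X) :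
    k x0 (b • x) ↔ k x0 x := by
  have h1 : k x0 (b • x0) := hb
  refine ⟨fun h => ?_, fun h => k.trans h1 (hk.inv b _ _ h)⟩
  exact (hk.inv_iff b x0 x).1 (k.trans (k.symm h1) h)

/-- Functionals supported in the class of `x0` which kill the values of the cocycle on the kernel. -/
def Wset (κ : Γ → X → ZMod p) (hκ : Coc κ) (k : Setoid X) (x0 : X) : AddSubgroup (X → ZMod p) where
  carrier := {u | (∀ x, u x ≠ 0 → k x0 x) ∧
    ∀ n : Γ, (∀ x : X, n • x = x) → ∑ᶠ x, u x * κ n x = 0}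
  zero_mem' := ⟨fun x hx => absurd rfl hx, fun n _ => by
    rw [finsum_eq_zero_of_forall_eq_zero]
    intro x
    exact zero_mul _⟩
  add_mem' := by
    rintro u v ⟨hu, hu'⟩ ⟨hv, hv'⟩
    refine ⟨fun x hx => ?_, fun n hn => ?_⟩
    · by_cases h1 : u x = 0
      · by_cases h2 : v x = 0
        · exact absurd (show u x + v x = 0 by rw [h1, h2, add_zero]) hx
        · exact hv x h2
      · exact hu x h1
    · have h1 : ∑ᶠ x, (u + v) x * κ n x = ∑ᶠ x, (u x * κ n x + v x * κ n x) :=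
        finsum_congr fun x => add_mul _ _ _
      rw [h1, finsum_add_distrib (coc_hfs hκ u n) (coc_hfs hκ v n), hu' n hn, hv' n hn, add_zero]
  neg_mem' := by
    rintro u ⟨hu, hu'⟩
    refine ⟨fun x hx => hu x fun h => hx (show -u x = 0 by rw [h, neg_zero]), fun n hn => ?_⟩
    have h1 : ∑ᶠ x, (-u) x * κ n x = ∑ᶠ x, -(u x * κ n x) := finsum_congr fun x => neg_mul _ _
    rw [h1, finsum_neg_distrib, hu' n hn, neg_zero]

theorem mem_Wset {κ : Γ → X → ZMod p} {hκ : Coc κ} {k : Setoid X} {x0 : X} {u : X → ZMod p} :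
    u ∈ Wset κ hκ k x0 ↔ (∀ x, u x ≠ 0 → k x0 x) ∧
      ∀ n : Γ, (∀ x : X, n • x = x) → ∑ᶠ x, u x * κ n x = 0 := Iff.rfl

theorem Wset_finite (hp : p.Prime) {κ : Γ → X → ZMod p} (hκ : Coc κ) {k : Setoid X}
    (hk : FC Γ k) (x0 : X) : ((Wset κ hκ k x0 : AddSubgroup (X → ZMod p)) :
      Set (X → ZMod p)).Finite := by
  have : Fact p.Prime := ⟨hp⟩
  have hE : Finite {y | k x0 y} := hk.fc x0
  refine Set.Finite.of_finite_image (f := fun (u : X → ZMod p) (y : {y | k x0 y}) => u y)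
    (Set.toFinite _) ?_
  intro u hu v hv huv
  funext x
  by_cases hx : k x0 x
  · exact congrFun huv ⟨x, hx⟩
  · have h1 : u x = 0 := by
      by_contra h
      exact hx (hu.1 x h)
    have h2 : v x = 0 := by
      by_contra h
      exact hx (hv.1 x h)
    rw [h1, h2]

/-- A fixed nonzero functional. -/
theorem exists_fixed (hp : p.Prime) (hpg : IsPGroup p Γ) {κ : Γ → X → ZMod p} (hκ : Coc κ)
    {k : Setoid X} (hk : FC Γ k) (x0 : X) {w : X → ZMod p} (hw : ∃ x, w x ≠ 0)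
    (hwk : ∀ x, w x ≠ 0 → k x0 x)
    (hwN : ∀ n : Γ, (∀ x : X, n • x = x) → ∑ᶠ x, w x * κ n x = 0) :
    ∃ u ∈ Wset κ hκ k x0, (∃ x, u x ≠ 0) ∧ ∀ b ∈ stab hk x0, ∀ x, u (b⁻¹ • x) = u x := by
  classical
  have : Fact p.Prime := ⟨hp⟩
  let iact : MulAction (stab hk x0) (X → ZMod p) := arrowAction
  have hsm : ∀ (b : stab hk x0) (u : X → ZMod p) (x : X), (b • u) x = u ((b : Γ)⁻¹ • x) :=
    fun b u x => rfl
  have hfin := Wset_finite hp hκ hk x0
  have hinv : ∀ b : stab hk x0, ∀ u ∈ ((Wset κ hκ k x0 : AddSubgroup (X → ZMod p)) :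
      Set (X → ZMod p)), b • u ∈ ((Wset κ hκ k x0 : AddSubgroup (X → ZMod p)) :
      Set (X → ZMod p)) := by
    rintro ⟨b, hb⟩ u ⟨hu, hu'⟩
    refine ⟨fun x hx => ?_, fun n hn => ?_⟩
    · have h1 : k x0 (b⁻¹ • x) := hu _ hx
      exact (stab_class hk ((stab hk x0).inv_mem hb) x).1 h1
    · have h1 : ∑ᶠ x, u (b⁻¹ • x) * κ n x =
          ∑ᶠ x, u (b⁻¹ • x) * κ (b⁻¹ * n * b⁻¹⁻¹) (b⁻¹ • x) :=
        finsum_congr fun x => by rw [hκ.conj b⁻¹ hn]
      have h2 := finsum_comp_equiv (MulAction.toPerm (b⁻¹ : Γ))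
        (f := fun y : X => u y * κ (b⁻¹ * n * b⁻¹⁻¹) y)
      exact h1.trans (h2.trans (hu' _ (Coc.conj_triv hn)))
  have hP : IsPGroup p (stab hk x0) := hpg.to_subgroup _
  have h1 := pfix hp hP _ hfin hinv
  have h2 : p ∣ Nat.card (((Wset κ hκ k x0 : AddSubgroup (X → ZMod p)) : Set (X → ZMod p))) := by
    have h3 : addOrderOf (⟨w, hwk, hwN⟩ : Wset κ hκ k x0) = p := by
      refine addOrderOf_eq_prime ?_ ?_
      · refine Subtype.ext ?_
        funext x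
        show p • w x = 0
        rw [nsmul_eq_mul, ZMod.natCast_self, zero_mul]
      · intro h
        obtain ⟨x, hx⟩ := hw
        exact hx (congrFun (congrArg Subtype.val h) x)
    have h4 := addOrderOf_dvd_natCard (⟨w, hwk, hwN⟩ : Wset κ hκ k x0)
    rw [h3] at h4
    exact h4
  have h3 : p ∣ Nat.card {u // u ∈ ((Wset κ hκ k x0 : AddSubgroup (X → ZMod p)) :
      Set (X → ZMod p)) ∧ ∀ g : stab hk x0, g • u = u} :=
    Nat.modEq_zero_iff_dvd.1 (h1.symm.trans (Nat.modEq_zero_iff_dvd.2 h2))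
  have hF : Finite {u // u ∈ ((Wset κ hκ k x0 : AddSubgroup (X → ZMod p)) :
      Set (X → ZMod p)) ∧ ∀ g : stab hk x0, g • u = u} :=
    Set.Finite.subset hfin fun u hu => hu.1
  have h0 : (0 : X → ZMod p) ∈ ((Wset κ hκ k x0 : AddSubgroup (X → ZMod p)) :
      Set (X → ZMod p)) ∧ ∀ g : stab hk x0, g • (0 : X → ZMod p) = 0 :=
    ⟨(Wset κ hκ k x0).zero_mem, fun g => rfl⟩
  have h4 : 1 < Nat.card {u // u ∈ ((Wset κ hκ k x0 : AddSubgroup (X → ZMod p)) :
      Set (X → ZMod p)) ∧ ∀ g : stab hk x0, g • u = u} :=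
    hp.one_lt.trans_le (Nat.le_of_dvd (Finite.card_pos_iff.2 ⟨⟨0, h0⟩⟩) h3)
  rw [Finite.one_lt_card_iff_nontrivial] at h4
  obtain ⟨⟨u, hu, hu'⟩, hne⟩ := exists_ne (⟨0, h0⟩ : {u // u ∈ ((Wset κ hκ k x0 :
    AddSubgroup (X → ZMod p)) : Set (X → ZMod p)) ∧ ∀ g : stab hk x0, g • u = u})
  refine ⟨u, hu, ?_, fun b hb x => ?_⟩
  · by_contra hcon
    push Not at hcon
    exact hne (Subtype.ext (funext hcon))
  · have h5 := congrFun (hu' ⟨b, hb⟩) x
    rw [hsm] at h5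
    exact h5

theorem classsum (hp : p.Prime) (hpg : IsPGroup p Γ) {κ : Γ → X → ZMod p} (hκ : Coc κ)
    (htr : ∀ x y : X, ∃ g : Γ, g • x = y)
    {k : Setoid X} (hk : FC Γ k) (x0 : X) {w : X → ZMod p} (hw : ∃ x, w x ≠ 0)
    (hwk : ∀ x, w x ≠ 0 → k x0 x)
    (hwN : ∀ n : Γ, (∀ x : X, n • x = x) → ∑ᶠ x, w x * κ n x = 0) :
    ∀ n : Γ, (∀ x : X, n • x = x) → ∀ E : Finset X, (∃ y, ∀ x, x ∈ E ↔ k y x) →
      ∑ x ∈ E, κ n x = 0 := by
  classical
  have : Fact p.Prime := ⟨hp⟩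
  obtain ⟨u, hu, ⟨z, hz⟩, hfix⟩ := exists_fixed hp hpg hκ hk x0 hw hwk hwN
  have hconst : ∀ x, k x0 x → u x = u x0 := by
    intro x hx
    obtain ⟨b, hb⟩ := htr x0 x
    have h1 := hfix b (show k x0 (b • x0) by rw [hb]; exact hx) x
    rw [← h1, ← hb, inv_smul_smul]
  have hu0 : u x0 ≠ 0 := by
    rw [← hconst z (hu.1 z hz)]
    exact hz
  have hbase : ∀ n : Γ, (∀ x : X, n • x = x) → ∀ E : Finset X, (∀ x, x ∈ E ↔ k x0 x) →
      ∑ x ∈ E, κ n x = 0 := by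
    intro n hn E hE
    have h1 := hu.2 n hn
    rw [finsum_eq_sum_of_support_subset (s := E)] at h1
    · have h2 : ∑ x ∈ E, u x * κ n x = u x0 * ∑ x ∈ E, κ n x := by
        rw [Finset.mul_sum]
        exact Finset.sum_congr rfl fun x hx => by rw [hconst x ((hE x).1 hx)]
      rw [h2] at h1
      exact (mul_eq_zero.1 h1).resolve_left hu0
    · intro x hx
      refine Finset.mem_coe.2 ((hE x).2 (hu.1 x fun h => hx ?_))
      show u x * κ n x = 0
      rw [h, zero_mul]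
  rintro n hn E ⟨y, hE⟩
  obtain ⟨g, hg⟩ := htr y x0
  have h1 := hbase (g * n * g⁻¹) (Coc.conj_triv hn) (E.image fun x => g • x) (by
    intro x
    rw [Finset.mem_image]
    constructor
    · rintro ⟨z, hz, rfl⟩
      rw [← hg]
      exact hk.inv g _ _ ((hE z).1 hz)
    · intro h
      refine ⟨g⁻¹ • x, (hE _).2 ?_, smul_inv_smul g x⟩
      have h2 := hk.inv g⁻¹ _ _ h
      rwa [← hg, inv_smul_smul] at h2)
  rw [Finset.sum_image (fun a _ b _ hab => smul_left_cancel g hab)] at h1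
  rw [← h1]
  exact Finset.sum_congr rfl fun x _ => (hκ.conj g hn x).symm

end

end Pool.Agent.Lib.MP_04dca5_al.Tr
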