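import Pool.Agent.Lib.MP_04dca5_al.Tr.Abs

/-!
# MP_04dca5_al, transfer theorem: a functional which kills the values of the cocycle on the kernel
-/

set_option autoImplicit false

namespace Pool.Agent.Lib.MP_04dca5_al.Tr

section
variable {Γ X : Type} [Group Γ] [MulAction Γ X] {p : ℕ}

theorem coc_hfs1 {κ : Γ → X → ZMod p} (hκ : Coc κ) (g : Γ) :
    Function.HasFiniteSupport (κ g) := hκ.fs g

theorem coc_hfs2 {κ : Γ → X → ZMod p} (hκ : Coc κ) (g h : Γ) :
    Function.HasFiniteSupport (fun x => κ h (g • x)) := by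
  refine ((hκ.fs h).image (fun x => g⁻¹ • x)).subset fun x hx => ?_
  exact ⟨g • x, hx, inv_smul_smul g x⟩

/-- The values of a cocycle have sum `0` if there is no homomorphism to `ZMod p`. -/
theorem coc_sum {κ : Γ → X → ZMod p} (hκ : Coc κ)
    (H1 : ∀ f : Γ → ZMod p, (∀ g h, f (g * h) = f g + f h) → ∀ g, f g = 0) (g : Γ) :
    ∑ᶠ x, κ g x = 0 := by
  refine H1 (fun g => ∑ᶠ x, κ g x) (fun g h => ?_) g
  have h1 : ∑ᶠ x, κ (g * h) x = ∑ᶠ x, (κ g x + κ h (g⁻¹ • x)) :=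
    finsum_congr fun x => hκ.mul g h x
  rw [h1, finsum_add_distrib (coc_hfs1 hκ g) (coc_hfs2 hκ g⁻¹ h)]
  congr 1
  exact finsum_comp_equiv (MulAction.toPerm (g⁻¹ : Γ)) (f := κ h)

theorem dualfun (hp : p.Prime) {κ : Γ → X → ZMod p} (hκ : Coc κ)
    (H1 : ∀ f : Γ → ZMod p, (∀ g h, f (g * h) = f g + f h) → ∀ g, f g = 0)
    (H2 : ∀ H : Subgroup Γ, (∀ x y : X, ∃ h ∈ H, h • x = y) → H = ⊤)
    (htr : ∀ x y : X, ∃ g : Γ, g • x = y) (hne : ∃ g x, κ g x ≠ 0) :
    ∃ q : X → ZMod p, (∃ x y, q x ≠ q y) ∧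
      ∀ n : Γ, (∀ x : X, n • x = x) → ∑ᶠ x, q x * κ n x = 0 := by
  classical
  have : Fact p.Prime := ⟨hp⟩
  have hinvx : ∀ n : Γ, (∀ x : X, n • x = x) → ∀ x : X, n⁻¹ • x = x := by
    intro n hn x
    have h := inv_smul_smul n x
    rwa [hn] at h
  let I : AddSubgroup (X →₀ ZMod p) :=
    { carrier := {f | ∃ n : Γ, (∀ x : X, n • x = x) ∧ ∀ x, f x = κ n x}
      zero_mem' := ⟨1, fun x => one_smul Γ x, fun x => (hκ.one x).symm⟩
      add_mem' := by
        rintro f g ⟨n, hn, hf⟩ ⟨m, hm, hg⟩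
        refine ⟨n * m, fun x => by rw [mul_smul, hm, hn], fun x => ?_⟩
        rw [Finsupp.add_apply, hf, hg, hκ.mul, hinvx n hn]
      neg_mem' := by
        rintro f ⟨n, hn, hf⟩
        refine ⟨n⁻¹, hinvx n hn, fun x => ?_⟩
        rw [Finsupp.neg_apply, hf, hκ.inv, hn] }
  have hI : ∀ f : X →₀ ZMod p, f ∈ AddSubgroup.toZModSubmodule p I ↔
      ∃ n : Γ, (∀ x : X, n • x = x) ∧ ∀ x, f x = κ n x := fun f => Iff.rfl
  have hv : ∃ v : X →₀ ZMod p, v ∉ AddSubgroup.toZModSubmodule p I ∧ ∑ᶠ x, v x = 0 := by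
    by_contra hcon
    push Not at hcon
    obtain ⟨g0, x0, hg0⟩ := hne
    let H : Subgroup Γ :=
      { carrier := {g | ∀ x, κ g x = 0}
        one_mem' := fun x => hκ.one x
        mul_mem' := by
          intro g h hg hh x
          rw [hκ.mul, hg, hh, add_zero]
        inv_mem' := by
          intro g hg x
          rw [hκ.inv, hg, neg_zero] }
    have hH : H = ⊤ := by
      refine H2 H fun x y => ?_
      obtain ⟨g, hg⟩ := htr x y
      have h1 : Finsupp.ofSupportFinite (κ g⁻¹) (hκ.fs g⁻¹) ∈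
          AddSubgroup.toZModSubmodule p I := by
        by_contra h2
        exact hcon _ h2 (coc_sum hκ H1 g⁻¹)
      obtain ⟨n, hn, hnx⟩ := (hI _).1 h1
      refine ⟨g * n, fun z => ?_, by rw [mul_smul, hn, hg]⟩
      rw [hκ.mul, ← hnx (g⁻¹ • z)]
      show κ g z + κ g⁻¹ (g⁻¹ • z) = 0
      rw [hκ.inv, smul_inv_smul, add_neg_cancel]
    have h3 : g0 ∈ H := by
      rw [hH]
      trivial
    exact hg0 (h3 x0)
  obtain ⟨v, hvI, hv0⟩ := hv
  obtain ⟨ψ, hψv, hψI⟩ := Submodule.exists_le_ker_of_notMem hvI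
  have hψ : ∀ f : X →₀ ZMod p, ψ f = ∑ᶠ x, ψ (Finsupp.single x 1) * f x := by
    intro f
    have h1 : ψ f = f.sum fun x c => ψ (Finsupp.single x c) := by
      conv_lhs => rw [← Finsupp.sum_single f]
      exact map_finsuppSum ψ f _
    rw [h1, finsum_eq_sum_of_support_subset (s := f.support)]
    · refine Finset.sum_congr rfl fun x _ => ?_
      have h2 : Finsupp.single x (f x) = f x • Finsupp.single x (1 : ZMod p) := by
        rw [Finsupp.smul_single_one]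
      show ψ (Finsupp.single x (f x)) = _
      rw [h2, map_smul, smul_eq_mul, mul_comm]
    · intro x hx
      rw [Finset.mem_coe, Finsupp.mem_support_iff]
      intro h2
      exact hx (by simp [h2])
  refine ⟨fun x => ψ (Finsupp.single x 1), ?_, fun n hn => ?_⟩
  · by_contra hcon
    push Not at hcon
    obtain ⟨g0, x0, hg0⟩ := hne
    apply hψv
    rw [hψ v]
    have h1 : ∑ᶠ x, ψ (Finsupp.single x 1) * v x = ∑ᶠ x, ψ (Finsupp.single x0 1) * v x :=
      finsum_congr fun x => by rw [hcon x x0]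
    rw [h1, ← mul_finsum, hv0, mul_zero]
  · have h1 : Finsupp.ofSupportFinite (κ n) (hκ.fs n) ∈ AddSubgroup.toZModSubmodule p I :=
      (hI _).2 ⟨n, hn, fun x => rfl⟩
    have h2 := hψI h1
    rw [LinearMap.mem_ker, hψ] at h2
    exact h2

theorem finfun {κ : Γ → X → ZMod p} (hκ : Coc κ)
    (htr : ∀ x y : X, ∃ g : Γ, g • x = y) (hfin : ∀ g : Γ, {x : X | g • x ≠ x}.Finite)
    {q : X → ZMod p} (hq : ∃ x y, q x ≠ q y)
    (hqN : ∀ n : Γ, (∀ x : X, n • x = x) → ∑ᶠ x, q x * κ n x = 0) :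
    ∃ w : X → ZMod p, (∃ x, w x ≠ 0) ∧ {x | w x ≠ 0}.Finite ∧
      ∀ n : Γ, (∀ x : X, n • x = x) → ∑ᶠ x, w x * κ n x = 0 := by
  obtain ⟨x, y, hxy⟩ := hq
  obtain ⟨g, hg⟩ := htr x y
  refine ⟨fun z => q (g • z) - q z, ⟨x, ?_⟩, ?_, fun n hn => ?_⟩
  · show q (g • x) - q x ≠ 0
    rw [hg]
    exact sub_ne_zero.2 hxy.symm
  · refine (hfin g).subset fun z hz hgz => hz ?_
    show q (g • z) - q z = 0
    rw [hgz, sub_self]
  · have h1 : ∑ᶠ z, (q (g • z) - q z) * κ n z =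
        ∑ᶠ z, (q (g • z) * κ n z - q z * κ n z) := finsum_congr fun z => sub_mul _ _ _
    have h2 : ∑ᶠ z, q (g • z) * κ n z = 0 := by
      have h3 : ∑ᶠ z, q (g • z) * κ n z = ∑ᶠ z, q (g • z) * κ (g * n * g⁻¹) (g • z) :=
        finsum_congr fun z => by rw [hκ.conj g hn]
      rw [h3]
      have h4 := finsum_comp_equiv (MulAction.toPerm (g : Γ))
        (f := fun y : X => q y * κ (g * n * g⁻¹) y)
      exact h4.trans (hqN _ (Coc.conj_triv hn))
    rw [h1, finsum_sub_distrib (coc_hfs hκ (fun z => q (g • z)) n) (coc_hfs hκ q n), h2,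
      hqN n hn, sub_zero]

end

end Pool.Agent.Lib.MP_04dca5_al.Tr
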