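import Pool.Agent.Lib.MP_04dca5_al.Tr.Cls

/-!
# MP_04dca5_al, transfer theorem: the abstract theorem
-/

set_option autoImplicit false

namespace Pool.Agent.Lib.MP_04dca5_al.Tr

section
variable {Γ X : Type} [Group Γ] [MulAction Γ X] {p : ℕ}

/-- The action on the classes. -/
@[reducible] def quotAct (k : Setoid X) (hk : ∀ (g : Γ) (x y : X), k x y → k (g • x) (g • y)) :
    MulAction Γ (Quotient k) where
  smul g := Quotient.map (fun x => g • x) (fun x y h => hk g x y h)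
  one_smul := by
    intro z
    obtain ⟨x, rfl⟩ := Quotient.exists_rep z
    show Quotient.mk k ((1 : Γ) • x) = Quotient.mk k x
    rw [one_smul]
  mul_smul := by
    intro g h z
    obtain ⟨x, rfl⟩ := Quotient.exists_rep z
    show Quotient.mk k ((g * h) • x) = Quotient.mk k (g • (h • x))
    rw [mul_smul]

/-- Elements which live in the class of `x0`. -/
def rig {κ : Γ → X → ZMod p} (hκ : Coc κ) (K : Setoid X) (x0 : X) : Subgroup Γ where
  carrier := {g | ∀ x, ¬ K x0 x → g • x = x ∧ κ g x = 0}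
  one_mem' := fun x _ => ⟨one_smul Γ x, hκ.one x⟩
  mul_mem' := by
    intro g h hg hh x hx
    obtain ⟨h1, h2⟩ := hg x hx
    obtain ⟨h3, h4⟩ := hh x hx
    have h5 : g⁻¹ • x = x := by
      have h := inv_smul_smul g x
      rwa [h1] at h
    exact ⟨by rw [mul_smul, h3, h1], by rw [hκ.mul, h5, h2, h4, add_zero]⟩
  inv_mem' := by
    intro g hg x hx
    obtain ⟨h1, h2⟩ := hg x hx
    have h5 : g⁻¹ • x = x := by
      have h := inv_smul_smul g x
      rwa [h1] at h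
    exact ⟨h5, by rw [hκ.inv, h1, h2, neg_zero]⟩

theorem rig_class {κ : Γ → X → ZMod p} (hκ : Coc κ) {K : Setoid X} {x0 : X} {g : Γ}
    (hg : g ∈ rig hκ K x0) {x : X} (hx : K x0 x) : K x0 (g • x) := by
  by_contra hcon
  have h1 : g • (g • x) = g • x := (hg _ hcon).1
  have h2 : g • x = x := smul_left_cancel g h1
  rw [h2] at hcon
  exact hcon hx

theorem rig_conj {κ : Γ → X → ZMod p} (hκ : Coc κ) {K : Setoid X} (hK : FC Γ K) {x0 : X}
    {b a : Γ} (hb : K x0 (b • x0)) (ha : a ∈ rig hκ K x0) : b * a * b⁻¹ ∈ rig hκ K x0 := by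
  intro y hy
  have h1 : ¬ K x0 (b⁻¹ • y) := by
    intro h
    have h2 := hK.inv b _ _ h
    rw [smul_inv_smul] at h2
    exact hy (K.trans hb h2)
  obtain ⟨h2, h3⟩ := ha _ h1
  have h4 : a⁻¹ • (b⁻¹ • y) = b⁻¹ • y := by
    have h := inv_smul_smul a (b⁻¹ • y)
    rwa [h2] at h
  refine ⟨by rw [mul_smul, mul_smul, h2, smul_inv_smul], ?_⟩
  rw [hκ.mul, hκ.mul, mul_inv_rev, mul_smul, h4, h3, hκ.inv, smul_inv_smul]
  ring

/-- The commutator of an element living in `C` and an element acting trivially on `C`. -/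
theorem comm_triv {κ : Γ → X → ZMod p} (hκ : Coc κ) {K : Setoid X} {x0 : X} {g h : Γ}
    (hg : g ∈ rig hκ K x0) (hh : ∀ x, K x0 x → h • x = x) (x : X) :
    (g⁻¹ * h * g * h⁻¹) • x = x := by
  have hhi : ∀ x, K x0 x → h⁻¹ • x = x := by
    intro x hx
    have h1 := inv_smul_smul h x
    rwa [hh x hx] at h1
  by_cases hx : K x0 x
  · rw [mul_smul, hhi x hx, mul_smul, mul_smul, hh _ (rig_class hκ hg hx), inv_smul_smul]
  · have h1 : ¬ K x0 (h⁻¹ • x) := by
      intro h2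
      have h3 := hh _ h2
      rw [smul_inv_smul] at h3
      rw [← h3] at h2
      exact hx h2
    rw [mul_smul, mul_smul, mul_smul, (hg _ h1).1, smul_inv_smul]
    exact ((rig hκ K x0).inv_mem hg x hx).1

theorem comm_val {κ : Γ → X → ZMod p} (hκ : Coc κ) {K : Setoid X} {x0 : X} {g h : Γ}
    (hg : g ∈ rig hκ K x0) (hh : ∀ x, K x0 x → h • x = x) {x : X} (hx : K x0 x) :
    κ (g⁻¹ * h * g * h⁻¹) x = κ h (g • x) - κ h x := by
  have hhi : ∀ x, K x0 x → h⁻¹ • x = x := by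
    intro x hx
    have h1 := inv_smul_smul h x
    rwa [hh x hx] at h1
  have h1 : (g⁻¹ * h * g)⁻¹ • x = x := by
    rw [mul_inv_rev, mul_inv_rev, inv_inv, mul_smul, mul_smul, hhi _ (rig_class hκ hg hx),
      inv_smul_smul]
  have h2 : (g⁻¹ * h)⁻¹ • x = g • x := by
    rw [mul_inv_rev, inv_inv, mul_smul, hhi _ (rig_class hκ hg hx)]
  rw [hκ.mul, hκ.mul, hκ.mul, h1, h2, hκ.inv h, hκ.inv g, inv_inv, hh x hx]
  ring

theorem lastStep (hp : p.Prime) (hpg : IsPGroup p Γ) {κ : Γ → X → ZMod p} (hκ : Coc κ)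
    (htr : ∀ x y : X, ∃ g : Γ, g • x = y) {k K : Setoid X} (hk : FC Γ k) (hK : FC Γ K)
    (hkK : k ≤ K) (x0 : X) {a : Γ} (ha : ¬ k x0 (a • x0)) (haK : a ∈ rig hκ K x0)
    (hsum : ∀ n : Γ, (∀ x : X, n • x = x) → ∀ E : Finset X, (∃ y, ∀ x, x ∈ E ↔ k y x) →
      ∑ x ∈ E, κ n x = 0)
    (C : Finset X) (hC : ∀ x, x ∈ C ↔ K x0 x) (h : Γ) (hh : ∀ x ∈ C, h • x = x) :
    ∑ x ∈ C, κ h x = 0 := by
  classical
  let iact : MulAction Γ (Quotient k) := quotAct k hk.inv
  have hsm : ∀ (g : Γ) (x : X), g • (Quotient.mk k x) = Quotient.mk k (g • x) := fun g x => rfl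
  have hh' : ∀ x, K x0 x → h • x = x := fun x hx => hh x ((hC x).2 hx)
  rw [← Finset.sum_fiberwise_of_maps_to (t := C.image (Quotient.mk k)) (g := Quotient.mk k)
    (fun x hx => Finset.mem_image_of_mem _ hx)]
  have hP : IsPGroup p (rig hκ K x0) := hpg.to_subgroup _
  refine sum_inv (P := rig hκ K x0) hp hP _ ?_ ?_ _ ?_
  · rintro ⟨g, hg⟩ z hz
    obtain ⟨x, hx, rfl⟩ := Finset.mem_image.1 hz
    refine Finset.mem_image.2 ⟨g • x, (hC _).2 (rig_class hκ hg ((hC x).1 hx)), rfl⟩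
  · intro z hz
    obtain ⟨x, hx, rfl⟩ := Finset.mem_image.1 hz
    obtain ⟨b, rfl⟩ := htr x0 x
    refine ⟨⟨b * a * b⁻¹, rig_conj hκ hK ((hC _).1 hx) haK⟩, ?_⟩
    show Quotient.mk k ((b * a * b⁻¹) • (b • x0)) ≠ Quotient.mk k (b • x0)
    rw [mul_smul, inv_smul_smul, mul_smul]
    intro he
    have h1 : k (b • (a • x0)) (b • x0) := Quotient.exact he
    exact ha (k.symm ((hk.inv_iff b _ _).1 h1))
  · rintro ⟨g, hg⟩ z hz
    obtain ⟨y, hy, rfl⟩ := Finset.mem_image.1 hz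
    show ∑ x ∈ C.filter (fun x => Quotient.mk k x = Quotient.mk k (g • y)), κ h x =
      ∑ x ∈ C.filter (fun x => Quotient.mk k x = Quotient.mk k y), κ h x
    have h1 : C.filter (fun x => Quotient.mk k x = Quotient.mk k (g • y)) =
        (C.filter (fun x => Quotient.mk k x = Quotient.mk k y)).image fun x => g • x := by
      ext x
      rw [Finset.mem_filter, Finset.mem_image]
      constructor
      · rintro ⟨hx, hxy⟩
        refine ⟨g⁻¹ • x, Finset.mem_filter.2 ⟨(hC _).2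
          (rig_class hκ ((rig hκ K x0).inv_mem hg) ((hC x).1 hx)), ?_⟩, smul_inv_smul g x⟩
        have h2 : k x (g • y) := Quotient.exact hxy
        have h3 := hk.inv g⁻¹ _ _ h2
        rw [inv_smul_smul] at h3
        exact Quotient.sound h3
      · rintro ⟨w, hw, rfl⟩
        obtain ⟨hw1, hw2⟩ := Finset.mem_filter.1 hw
        refine ⟨(hC _).2 (rig_class hκ hg ((hC w).1 hw1)), ?_⟩
        exact Quotient.sound (hk.inv g _ _ (Quotient.exact hw2))
    rw [h1, Finset.sum_image (fun a _ b _ hab => smul_left_cancel g hab), ← sub_eq_zero,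
      ← Finset.sum_sub_distrib]
    have h2 := hsum (g⁻¹ * h * g * h⁻¹) (comm_triv hκ hg hh')
      (C.filter (fun x => Quotient.mk k x = Quotient.mk k y)) ⟨y, fun x => by
        rw [Finset.mem_filter]
        constructor
        · rintro ⟨_, hxy⟩
          exact k.symm (Quotient.exact hxy)
        · intro hyx
          exact ⟨(hC x).2 (K.trans ((hC y).1 hy) (hkK hyx)), Quotient.sound (k.symm hyx)⟩⟩
    rw [← h2]
    refine Finset.sum_congr rfl fun x hx => ?_
    exact (comm_val hκ hg hh' ((hC x).1 (Finset.mem_filter.1 hx).1)).symm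

/-- **The abstract transfer theorem.** -/
theorem abstractTransfer (hp : p.Prime) (hpg : IsPGroup p Γ) {κ : Γ → X → ZMod p} (hκ : Coc κ)
    [Infinite X] (htr : ∀ x y : X, ∃ g : Γ, g • x = y)
    (hfin : ∀ g : Γ, {x : X | g • x ≠ x}.Finite)
    (H1 : ∀ f : Γ → ZMod p, (∀ g h, f (g * h) = f g + f h) → ∀ g, f g = 0)
    (H2 : ∀ H : Subgroup Γ, (∀ x y : X, ∃ h ∈ H, h • x = y) → H = ⊤) (x0 : X)
    (H3 : ∀ k0 : Setoid X, FC Γ k0 → ∀ S : Set X, S.Finite →
      ∃ k : Setoid X, FC Γ k ∧ k0 ≤ k ∧ ∀ x ∈ S, k x0 x) :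
    ∃ k0 : Setoid X, FC Γ k0 ∧ ∀ K : Setoid X, FC Γ K → k0 ≤ K → ∀ C : Finset X,
      (∀ x, x ∈ C ↔ K x0 x) → ∀ h : Γ, (∀ x ∈ C, h • x = x) → ∑ x ∈ C, κ h x = 0 := by
  have hbot : FC Γ (⊥ : Setoid X) := by
    refine ⟨fun g x y h => ?_, fun x => ?_⟩
    · have h' : x = y := h
      rw [h']
    · refine (Set.finite_singleton x).subset fun y hy => ?_
      exact (show x = y from hy).symm
  by_cases hne : ∃ g x, κ g x ≠ 0
  · obtain ⟨q, hq, hqN⟩ := dualfun hp hκ H1 H2 htr hne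
    obtain ⟨w, hw, hwf, hwN⟩ := finfun hκ htr hfin hq hqN
    obtain ⟨k, hk, -, hkS⟩ := H3 ⊥ hbot _ hwf
    have hsum := classsum hp hpg hκ htr hk x0 hw (fun x hx => hkS x hx) hwN
    obtain ⟨y, hy⟩ : ∃ y, ¬ k x0 y := by
      by_contra hcon
      push Not at hcon
      have h1 : (Set.univ : Set X).Finite := (hk.fc x0).subset fun y _ => hcon y
      exact Set.infinite_univ h1
    obtain ⟨a, ha⟩ := htr x0 y
    obtain ⟨k0, hk0, hkk0, hS⟩ := H3 k hk _ ((hfin a).union (hκ.fs a))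
    refine ⟨k0, hk0, fun K hK hkK C hC h hh => ?_⟩
    refine lastStep hp hpg hκ htr hk hK (hkk0.trans hkK) x0 (a := a) (by rw [ha]; exact hy)
      (fun x hx => ?_) hsum C hC h hh
    constructor
    · by_contra h1
      exact hx (hkK (hS x (Or.inl h1)))
    · by_contra h1
      exact hx (hkK (hS x (Or.inr h1)))
  · push Not at hne
    exact ⟨⊥, hbot, fun K _ _ C _ h _ => Finset.sum_eq_zero fun x _ => hne h x⟩

end

end Pool.Agent.Lib.MP_04dca5_al.Tr
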