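import Pool.Agent.Lib.MP_04dca5_al.Cut.Cong
import Pool.Agent.Lib.MP_04dca5_al.Tr.Last

/-!
# MP_04dca5_al, transfer theorem: transfers in finitary barely transitive groups
-/

set_option autoImplicit false

namespace Pool.Agent.Lib.MP_04dca5_al.Tr

open Equiv Pool.Agent.Lib.MP_04dca5_al.Cut

/-- No homomorphism onto `ZMod p`. -/
theorem no_hom {Ω : Type} {p : ℕ} {G : Subgroup (Perm Ω)} (h : Hyp p G) (f : G → ZMod p)
    (hf : ∀ g g', f (g * g') = f g + f g') (g : G) : f g = 0 := by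
  have : Fact p.Prime := ⟨h.prime⟩
  by_contra hg
  have h1 : f 1 = 0 := by
    have h2 := hf 1 1
    rw [one_mul] at h2
    linear_combination -h2
  have hinv : ∀ x, f x⁻¹ = -f x := by
    intro x
    have h2 := hf x⁻¹ x
    rw [inv_mul_cancel, h1] at h2
    linear_combination -h2
  have hpow : ∀ (x : G) (n : ℕ), f (x ^ n) = n * f x := by
    intro x n
    induction n with
    | zero => rw [pow_zero, h1, Nat.cast_zero, zero_mul]
    | succ n ih => rw [pow_succ, hf, ih]; push_cast; ring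
  let K : Subgroup G :=
    { carrier := {x | f x = 0}
      one_mem' := h1
      mul_mem' := by
        intro a b ha hb
        show f (a * b) = 0
        rw [hf, show f a = 0 from ha, show f b = 0 from hb, add_zero]
      inv_mem' := by
        intro a ha
        show f a⁻¹ = 0
        rw [hinv, show f a = 0 from ha, neg_zero] }
  refine no_coatom h K ⟨fun hK => ?_, fun L hL => ?_⟩
  · have h2 : g ∈ K := by
      rw [hK]
      trivial
    exact hg h2
  · obtain ⟨l, hlL, hlK⟩ := Set.exists_of_ssubset hL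
    have hl : f l ≠ 0 := hlK
    rw [eq_top_iff]
    intro x _
    have h2 : x * (l ^ (f x / f l).val)⁻¹ ∈ K := by
      show f (x * (l ^ (f x / f l).val)⁻¹) = 0
      rw [hf, hinv, hpow, ZMod.natCast_val, ZMod.cast_id', id, div_mul_cancel₀ _ hl,
        add_neg_cancel]
    have h3 := L.mul_mem (hL.le h2) (L.pow_mem hlL (f x / f l).val)
    rwa [inv_mul_cancel_right] at h3

section down
variable {Ω : Type} {G : Subgroup (Perm Ω)} {r : Setoid Ω}

/-- The relation induced on the classes of `r`. -/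
noncomputable def down (r s : Setoid Ω) : Setoid (Quotient r) := Setoid.comap Quotient.out s

theorem down_iff {s : Setoid Ω} (hrs : r ≤ s) (x y : Ω) :
    down r s (Quotient.mk r x) (Quotient.mk r y) ↔ s x y := by
  have hx : s (Quotient.mk r x).out x := hrs (Quotient.mk_out x)
  have hy : s (Quotient.mk r y).out y := hrs (Quotient.mk_out y)
  refine ⟨fun h => ?_, fun h => ?_⟩
  · have h' : s (Quotient.mk r x).out (Quotient.mk r y).out := h
    exact s.trans (s.symm hx) (s.trans h' hy)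
  · show s (Quotient.mk r x).out (Quotient.mk r y).out
    exact s.trans hx (s.trans h (s.symm hy))

end down

theorem mainT {Ω : Type} {p : ℕ} {G : Subgroup (Perm Ω)} (h : Hyp p G) {r : Setoid Ω}
    (hr : Good G r) (o : Ω) (φ : Perm Ω → ZMod p)
    (hφ : ∀ a ∈ G, ∀ b ∈ G, r o (a o) → r o (b o) → φ (a * b) = φ a + φ b)
    (hφ0 : ∀ a ∈ G, (∀ y, r o y → a y = y) → φ a = 0) :
    ∃ u : Setoid Ω, Good G u ∧ ∀ s : Setoid Ω, Good G s → r ≤ s → u ≤ s → ∀ g ∈ G,
      (∀ y, s o y → r y (g y)) → ∀ T : Finset (Perm Ω), (∀ t ∈ T, t ∈ G ∧ s o (t o)) →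
      (∀ t ∈ T, ∀ t' ∈ T, r (t o) (t' o) → t = t') → (∀ y, s o y → ∃ t ∈ T, r y (t o)) →
      ∑ t ∈ T, φ (t⁻¹ * g * t) = 0 := by
  classical
  have := h.inf
  let iact : MulAction G (Quotient r) := quotAct r (fun g x y => hr.inv g g.2 x y)
  have hsm : ∀ (g : G) (x : Ω), g • Quotient.mk r x = Quotient.mk r ((g : Perm Ω) x) :=
    fun g x => rfl
  have hfib : ∀ q : Quotient r, (Quotient.mk r ⁻¹' {q}).Finite := by
    intro q
    obtain ⟨x, rfl⟩ := Quotient.exists_rep q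
    refine (hr.fc x).subset fun y hy => ?_
    exact r.symm (Quotient.exact hy)
  have hinf : Infinite (Quotient r) := by
    by_contra hcon
    rw [not_infinite_iff_finite] at hcon
    have h1 : (Quotient.mk r ⁻¹' Set.univ).Finite :=
      Set.Finite.preimage' Set.finite_univ fun q _ => hfib q
    exact Set.infinite_univ h1
  have htr : ∀ x y : Quotient r, ∃ g : G, g • x = y := by
    intro x y
    obtain ⟨x, rfl⟩ := Quotient.exists_rep x
    obtain ⟨y, rfl⟩ := Quotient.exists_rep y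
    obtain ⟨g, hg, hgx⟩ := h.tr x y
    exact ⟨⟨g, hg⟩, by rw [hsm]; exact congrArg _ hgx⟩
  have hmv : ∀ g : G, {q : Quotient r | g • q ≠ q} ⊆
      Quotient.mk r '' {x | (g : Perm Ω) x ≠ x} := by
    intro g q hq
    obtain ⟨x, rfl⟩ := Quotient.exists_rep q
    refine ⟨x, fun hx => hq ?_, rfl⟩
    rw [hsm, hx]
  have hfin : ∀ g : G, {q : Quotient r | g • q ≠ q}.Finite := fun g =>
    ((h.fin g g.2).image _).subset (hmv g)
  have hpg : IsPGroup p G := by
    intro g
    obtain ⟨k, hk⟩ := h.pg g g.2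
    exact ⟨k, Subtype.ext (by push_cast; exact hk)⟩
  -- representatives
  choose t ht using htr (Quotient.mk r o)
  have hst : ∀ a : G, a • Quotient.mk r o = Quotient.mk r o ↔ r o ((a : Perm Ω) o) := by
    intro a
    rw [hsm]
    exact ⟨fun h1 => r.symm (Quotient.exact h1), fun h1 => Quotient.sound (r.symm h1)⟩
  have hφ' : ∀ a b : G, a • Quotient.mk r o = Quotient.mk r o →
      b • Quotient.mk r o = Quotient.mk r o →
      φ ((a * b : G) : Perm Ω) = φ (a : Perm Ω) + φ (b : Perm Ω) := fun a b ha hb =>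
    hφ a a.2 b b.2 ((hst a).1 ha) ((hst b).1 hb)
  let κ : G → Quotient r → ZMod p := fun g q =>
    φ (((t q)⁻¹ * g * t (g⁻¹ • q) : G) : Perm Ω)
  have hm : ∀ (g : G) (q : Quotient r),
      ((t q)⁻¹ * g * t (g⁻¹ • q)) • Quotient.mk r o = Quotient.mk r o := by
    intro g q
    rw [mul_smul, ht, mul_smul, smul_inv_smul, inv_smul_eq_iff, ht]
  have hκ : Coc κ := by
    refine ⟨fun g g' q => ?_, fun g => ?_⟩
    · show φ (((t q)⁻¹ * (g * g') * t ((g * g')⁻¹ • q) : G) : Perm Ω) =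
        φ (((t q)⁻¹ * g * t (g⁻¹ • q) : G) : Perm Ω) +
        φ (((t (g⁻¹ • q))⁻¹ * g' * t (g'⁻¹ • g⁻¹ • q) : G) : Perm Ω)
      rw [← hφ' _ _ (hm g q) (hm g' (g⁻¹ • q)), mul_inv_rev, mul_smul]
      congr 2
      group
    · refine ((h.fin g g.2).image (Quotient.mk r)).subset fun q hq => ?_
      by_contra hcon
      apply hq
      have h1 : ∀ x, Quotient.mk r x = q → (g : Perm Ω) x = x := by
        intro x hx
        by_contra h2
        exact hcon ⟨x, h2, hx⟩
      have h2 : g⁻¹ • q = q := by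
        rw [inv_smul_eq_iff, ← ht q, hsm, hsm]
        refine congrArg _ (h1 _ ?_).symm
        rw [← hsm, ht]
      show φ (((t q)⁻¹ * g * t (g⁻¹ • q) : G) : Perm Ω) = 0
      rw [h2]
      refine hφ0 _ (SetLike.coe_mem _) fun y hy => ?_
      have h3 : (g : Perm Ω) ((t q : Perm Ω) y) = (t q : Perm Ω) y := by
        refine h1 _ ?_
        rw [← hsm, ← Quotient.sound hy, ht]
      show ((t q : Perm Ω)⁻¹ * (g : Perm Ω) * (t q : Perm Ω)) y = y
      rw [Perm.mul_apply, Perm.mul_apply, h3]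
      exact (t q : Perm Ω).symm_apply_apply y
  have H2 : ∀ H : Subgroup G, (∀ x y : Quotient r, ∃ a ∈ H, a • x = y) → H = ⊤ := by
    intro H hH
    by_contra hne
    have h1 : H.map G.subtype ≤ G := by
      rintro _ ⟨a, _, rfl⟩
      exact a.2
    have h2 : H.map G.subtype ≠ G := by
      intro heq
      apply hne
      rw [eq_top_iff]
      intro g _
      have h3 : (g : Perm Ω) ∈ H.map G.subtype := by
        rw [heq]
        exact g.2
      obtain ⟨b, hb, hbg⟩ := h3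
      have h4 : b = g := Subtype.ext hbg
      rw [← h4]
      exact hb
    have h3 := (h.bt _ h1 h2 o).image (Quotient.mk r)
    have h4 : (Set.univ : Set (Quotient r)).Finite := by
      refine h3.subset fun q _ => ?_
      obtain ⟨a, ha, haq⟩ := hH (Quotient.mk r o) q
      exact ⟨(a : Perm Ω) o, ⟨(a : Perm Ω), ⟨a, ha, rfl⟩, rfl⟩, haq⟩
    exact Set.infinite_univ h4
  -- congruences on the classes and on the points
  have hup : ∀ k : Setoid (Quotient r), FC G k → Good G (Setoid.comap (Quotient.mk r) k) := by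
    intro k hk
    refine ⟨fun g hg x y hxy => ?_, fun x => ?_⟩
    · exact hk.inv (⟨g, hg⟩ : G) (Quotient.mk r x) (Quotient.mk r y) hxy
    · exact Set.Finite.preimage' (hk.fc (Quotient.mk r x)) fun q _ => hfib q
  have hrup : ∀ k : Setoid (Quotient r), r ≤ Setoid.comap (Quotient.mk r) k := by
    intro k x y hxy
    show k (Quotient.mk r x) (Quotient.mk r y)
    rw [show Quotient.mk r x = Quotient.mk r y from Quotient.sound hxy]
  have hdown : ∀ s : Setoid Ω, Good G s → r ≤ s → FC G (down r s) := by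
    intro s hs hrs
    refine ⟨fun g x y hxy => ?_, fun x => ?_⟩
    · obtain ⟨x, rfl⟩ := Quotient.exists_rep x
      obtain ⟨y, rfl⟩ := Quotient.exists_rep y
      rw [hsm, hsm]
      exact (down_iff hrs _ _).2 (hs.inv g g.2 _ _ ((down_iff hrs _ _).1 hxy))
    · obtain ⟨x, rfl⟩ := Quotient.exists_rep x
      refine ((hs.fc x).image (Quotient.mk r)).subset fun y hy => ?_
      obtain ⟨y, rfl⟩ := Quotient.exists_rep y
      exact ⟨y, (down_iff hrs _ _).1 hy, rfl⟩
  have H3 : ∀ k0 : Setoid (Quotient r), FC G k0 → ∀ S : Set (Quotient r), S.Finite →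
      ∃ k : Setoid (Quotient r), FC G k ∧ k0 ≤ k ∧ ∀ x ∈ S, k (Quotient.mk r o) x := by
    intro k0 hk0 S hS
    obtain ⟨s, hs, hks, hsS⟩ := exists_cong h (hup k0 hk0) o (hS.image Quotient.out)
    have hrs : r ≤ s := (hrup k0).trans hks
    refine ⟨down r s, hdown s hs hrs, fun x y hxy => ?_, fun x hx => ?_⟩
    · obtain ⟨x, rfl⟩ := Quotient.exists_rep x
      obtain ⟨y, rfl⟩ := Quotient.exists_rep y
      exact (down_iff hrs _ _).2 (hks hxy)
    · have h1 : s o x.out := hsS _ ⟨x, hx, rfl⟩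
      rw [← Quotient.out_eq x]
      exact (down_iff hrs _ _).2 h1
  obtain ⟨k0, hk0, hmain⟩ := abstractTransfer h.prime hpg hκ htr hfin (no_hom h) H2
    (Quotient.mk r o) H3
  refine ⟨Setoid.comap (Quotient.mk r) k0, hup k0 hk0, fun s hs hrs hus g hg hgs T hT1 hT2
    hT3 => ?_⟩
  have hk0s : k0 ≤ down r s := by
    intro x y hxy
    obtain ⟨x, rfl⟩ := Quotient.exists_rep x
    obtain ⟨y, rfl⟩ := Quotient.exists_rep y
    exact (down_iff hrs _ _).2 (hus hxy)
  have hfixC : ∀ τ ∈ T, (⟨g, hg⟩ : G) • Quotient.mk r (τ o) = Quotient.mk r (τ o) := by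
    intro τ hτ
    rw [hsm]
    exact Quotient.sound (r.symm (hgs _ (hT1 τ hτ).2))
  have h1 := hmain (down r s) (hdown s hs hrs) hk0s (T.image fun τ => Quotient.mk r (τ o)) (by
    intro q
    rw [Finset.mem_image]
    constructor
    · rintro ⟨τ, hτ, rfl⟩
      exact (down_iff hrs _ _).2 (hT1 τ hτ).2
    · intro hq
      obtain ⟨y, rfl⟩ := Quotient.exists_rep q
      obtain ⟨τ, hτ, hyτ⟩ := hT3 y ((down_iff hrs _ _).1 hq)
      exact ⟨τ, hτ, Quotient.sound (r.symm hyτ)⟩) ⟨g, hg⟩ (by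
    intro q hq
    obtain ⟨τ, hτ, rfl⟩ := Finset.mem_image.1 hq
    exact hfixC τ hτ)
  rw [Finset.sum_image (fun a ha b hb hab => hT2 a ha b hb (Quotient.exact hab))] at h1
  rw [← h1]
  refine Finset.sum_congr rfl fun τ hτ => ?_
  have hτG := (hT1 τ hτ).1
  have h2 : (⟨g, hg⟩ : G)⁻¹ • Quotient.mk r (τ o) = Quotient.mk r (τ o) := by
    rw [inv_smul_eq_iff]
    exact (hfixC τ hτ).symm
  show φ (τ⁻¹ * g * τ) = φ (((t (Quotient.mk r (τ o)))⁻¹ * ⟨g, hg⟩ *
    t ((⟨g, hg⟩ : G)⁻¹ • Quotient.mk r (τ o)) : G) : Perm Ω)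
  rw [h2]
  obtain ⟨b, hb⟩ : ∃ b : G, t (Quotient.mk r (τ o)) = ⟨τ, hτG⟩ * b :=
    ⟨(⟨τ, hτG⟩ : G)⁻¹ * t (Quotient.mk r (τ o)), by rw [mul_inv_cancel_left]⟩
  have hb1 : b • Quotient.mk r o = Quotient.mk r o := by
    have h3 := ht (Quotient.mk r (τ o))
    rw [hb, mul_smul] at h3
    have h4 : (⟨τ, hτG⟩ : G) • Quotient.mk r o = Quotient.mk r (τ o) := rfl
    rw [← h4] at h3
    exact smul_left_cancel _ h3
  have hb2 : b⁻¹ • Quotient.mk r o = Quotient.mk r o := by
    rw [inv_smul_eq_iff]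
    exact hb1.symm
  have hx1 : ((⟨τ, hτG⟩ : G)⁻¹ * ⟨g, hg⟩ * ⟨τ, hτG⟩) • Quotient.mk r o = Quotient.mk r o := by
    have h4 : (⟨τ, hτG⟩ : G) • Quotient.mk r o = Quotient.mk r (τ o) := rfl
    rw [mul_smul, mul_smul, h4, hfixC τ hτ, ← h4, inv_smul_smul]
  have h0 : φ ((b⁻¹ : G) : Perm Ω) + φ (b : Perm Ω) = 0 := by
    rw [← hφ' _ _ hb2 hb1, inv_mul_cancel]
    exact hφ0 _ G.one_mem fun y _ => rfl
  rw [hb]
  have h5 : (((⟨τ, hτG⟩ : G) * b)⁻¹ * ⟨g, hg⟩ * ((⟨τ, hτG⟩ : G) * b)) =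
      b⁻¹ * (((⟨τ, hτG⟩ : G)⁻¹ * ⟨g, hg⟩ * ⟨τ, hτG⟩) * b) := by group
  rw [h5, hφ' _ _ hb2 (by rw [mul_smul, hb1, hx1]), hφ' _ _ hx1 hb1]
  have h6 : φ (τ⁻¹ * g * τ) = φ (((⟨τ, hτG⟩ : G)⁻¹ * ⟨g, hg⟩ * ⟨τ, hτG⟩ : G) : Perm Ω) := rfl
  rw [h6]
  linear_combination -h0

end Pool.Agent.Lib.MP_04dca5_al.Tr
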